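import Pool.Agent.Helper92.BO.GoalsA

/-!
# Stable set polytopes: the goal SRD
-/

namespace Pool.Agent.Helper2.BO

open MeasureTheory Pool.Agent.Helper92.BO

variable {d : ℕ} {l : ℝ} {W : ℝ → ℝ}

theorem W_one_nonneg (hA : Adm d W) : 0 ≤ W 1 := by
  have h := hA.rat 0 1 le_rfl zero_le_one le_rfl
  have h0 := hA.pos 0 le_rfl one_pos
  have h1 : (0 : ℝ) ≤ W 0 * (1 - 1) ^ d := mul_nonneg h0.le (by
    apply pow_nonneg; norm_num)
  have h2 : W 1 * (1 - 0) ^ d = W 1 := by simp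
  linarith

theorem W_nonneg (hA : Adm d W) {x : ℝ} (h0 : 0 ≤ x) (h1 : x ≤ 1) : 0 ≤ W x := by
  rcases lt_or_eq_of_le h1 with h | h
  · exact (hA.pos x h0 h).le
  · subst h
    exact W_one_nonneg hA

theorem psiR_pos (hl : 0 < l) (x : ℝ) : 0 < psiR l x := by
  unfold psiR
  split_ifs
  · exact one_pos
  · exact hl

theorem psiR_le (hl1 : l ≤ 1) (x : ℝ) : psiR l x ≤ 1 := by
  unfold psiR
  split_ifs
  · exact le_rfl
  · exact hl1

theorem psiR_anti (hl1 : l ≤ 1) {x' x : ℝ} (h : x' ≤ x) : psiR l x ≤ psiR l x' := by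
  unfold psiR
  split_ifs with h1 h2
  · exact le_rfl
  · exact absurd (h.trans h1) h2
  · exact hl1
  · exact le_rfl

theorem rho_nonneg (hl : 0 < l) (hA : Adm d W) {x : ℝ} (h0 : 0 ≤ x) (h1 : x ≤ 1) :
    0 ≤ rho l W x :=
  mul_nonneg (psiR_pos hl x).le (W_nonneg hA h0 h1)

theorem rho_anti (hl : 0 < l) (hl1 : l ≤ 1) (hA : Adm d W) :
    AntitoneOn (rho l W) (Set.Icc 0 1) := by
  intro x' hx' x hx h
  unfold rho
  exact mul_le_mul (psiR_anti hl1 h) (hA.anti x' x hx'.1 h hx.2) (W_nonneg hA hx.1 hx.2)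
    (psiR_pos hl _).le

theorem rho_int (hl : 0 < l) (hl1 : l ≤ 1) (hA : Adm d W) {a b : ℝ} (ha : 0 ≤ a) (hab : a ≤ b)
    (hb : b ≤ 1) : IntervalIntegrable (rho l W) volume a b := by
  apply AntitoneOn.intervalIntegrable
  rw [Set.uIcc_of_le hab]
  exact (rho_anti hl hl1 hA).mono (Set.Icc_subset_Icc ha hb)

theorem rho_int' (hl : 0 < l) (hl1 : l ≤ 1) (hA : Adm d W) {a b : ℝ} (ha : 0 ≤ a) (hab : a ≤ b)
    (hb : b ≤ 1) : IntervalIntegrable (fun x => rho l W x * x) volume a b :=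
  (rho_int hl hl1 hA ha hab hb).mul_continuousOn continuousOn_id

/-- Chebyshev. -/
theorem cheb {f : ℝ → ℝ} {c : ℝ} (hc : 0 ≤ c) (hf : AntitoneOn f (Set.Icc 0 c)) :
    2 * (∫ x in (0 : ℝ)..c, f x * x) ≤ c * ∫ x in (0 : ℝ)..c, f x := by
  have hfi : IntervalIntegrable f volume 0 c := by
    apply AntitoneOn.intervalIntegrable
    rwa [Set.uIcc_of_le hc]
  have hfi' : IntervalIntegrable (fun x => f x * x) volume 0 c :=
    hfi.mul_continuousOn continuousOn_id
  have hm : c / 2 ∈ Set.Icc 0 c := ⟨by linarith, by linarith⟩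
  have h1 : ∫ x in (0 : ℝ)..c, (f x * x - c / 2 * f x) ≤
      ∫ x in (0 : ℝ)..c, (f (c / 2) * x - f (c / 2) * (c / 2)) := by
    apply intervalIntegral.integral_mono_on hc
    · exact hfi'.sub (hfi.const_mul _)
    · apply Continuous.intervalIntegrable
      fun_prop
    · intro x hx
      rcases le_total x (c / 2) with h | h
      · have := hf hx hm h
        nlinarith
      · have := hf hm hx h
        nlinarith
  rw [intervalIntegral.integral_sub hfi' (hfi.const_mul _), intervalIntegral.integral_const_mul,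
    intervalIntegral.integral_sub (by apply Continuous.intervalIntegrable; fun_prop)
      (by apply Continuous.intervalIntegrable; fun_prop), intervalIntegral.integral_const_mul,
    intervalIntegral.integral_const, integral_id] at h1
  simp only [smul_eq_mul] at h1
  nlinarith

/-- The inner integral. -/
theorem inner_eq (hl : 0 < l) (hl1 : l ≤ 1) (hA : Adm d W) {y' : ℝ} (h0 : 0 ≤ y') (h1 : y' ≤ 1)
    (x : ℝ) : (∫ x' in (0 : ℝ)..y', rho l W x * rho l W x' * (2 * (x - x'))) =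
      rho l W x * (2 * x * Zf l W y' - 2 * ∫ x' in (0 : ℝ)..y', rho l W x' * x') := by
  have e : (fun x' => rho l W x * rho l W x' * (2 * (x - x'))) =
      fun x' => (2 * x * rho l W x) * rho l W x' - (2 * rho l W x) * (rho l W x' * x') := by
    funext x'
    ring
  have i1 := rho_int hl hl1 hA le_rfl h0 h1
  have i2 := rho_int' hl hl1 hA le_rfl h0 h1
  rw [e, intervalIntegral.integral_sub (i1.const_mul _) (i2.const_mul _),
    intervalIntegral.integral_const_mul, intervalIntegral.integral_const_mul]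
  unfold Zf
  ring

/-- The kernel `2 x Z' - 2 E'`. -/
theorem ker_ge (hl : 0 < l) (hl1 : l ≤ 1) (hA : Adm d W) {y' : ℝ} (h0 : 0 ≤ y') (h1 : y' ≤ 1)
    (x : ℝ) : (2 * x - y') * Zf l W y' ≤
      2 * x * Zf l W y' - 2 * ∫ x' in (0 : ℝ)..y', rho l W x' * x' := by
  have h := cheb h0 ((rho_anti hl hl1 hA).mono (Set.Icc_subset_Icc le_rfl h1))
  unfold Zf
  linarith

theorem Zf_nonneg (hl : 0 < l) (hA : Adm d W) {y' : ℝ} (h0 : 0 ≤ y') (h1 : y' ≤ 1) :
    0 ≤ Zf l W y' := by
  unfold Zf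
  apply intervalIntegral.integral_nonneg h0
  intro x hx
  exact rho_nonneg hl hA hx.1 (hx.2.trans h1)

theorem int_nonneg (hl : 0 < l) (hA : Adm d W) {a b : ℝ} (h0 : 0 ≤ a) (hab : a ≤ b)
    (h1 : b ≤ 1) : 0 ≤ ∫ x in a..b, rho l W x := by
  apply intervalIntegral.integral_nonneg hab
  intro x hx
  exact rho_nonneg hl hA (h0.trans hx.1) (hx.2.trans h1)

theorem Zf_ge (hl : 0 < l) (hl1 : l ≤ 1) (hA : Adm d W) {y' : ℝ} (h0 : 0 ≤ y') (h1 : y' ≤ 1) :
    y' * rho l W y' ≤ Zf l W y' := by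
  have h : ∫ x in (0 : ℝ)..y', rho l W y' ≤ ∫ x in (0 : ℝ)..y', rho l W x := by
    apply intervalIntegral.integral_mono_on h0
    · exact intervalIntegrable_const
    · exact rho_int hl hl1 hA le_rfl h0 h1
    · intro x hx
      exact rho_anti hl hl1 hA ⟨hx.1, hx.2.trans h1⟩ ⟨h0, h1⟩ hx.2
  rw [intervalIntegral.integral_const] at h
  simpa [Zf] using h

theorem Mf_le_one (hl : 0 < l) (hl1 : l ≤ 1) (hA : Adm d W) {y' y : ℝ} (h0 : 0 < y')
    (hyy : y' < y) (h1 : y ≤ 1) : Mf l W y' y ≤ 1 := by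
  have a1 : y' * (1 - y') * rho l W y' / Zf l W y' ≤ 1 := by
    have hr : 0 ≤ rho l W y' := rho_nonneg hl hA h0.le (hyy.le.trans h1)
    have hz := Zf_ge hl hl1 hA h0.le (hyy.le.trans h1)
    apply div_le_one_of_le₀ _ (Zf_nonneg hl hA h0.le (hyy.le.trans h1))
    have : y' * (1 - y') * rho l W y' ≤ y' * rho l W y' := by
      have h3 : 0 ≤ y' * y' * rho l W y' := by positivity
      nlinarith
    linarith
  have a2 : 0 ≤ y * (1 - y) * rho l W y / Zf l W y := by
    apply div_nonneg _ (Zf_nonneg hl hA (h0.le.trans hyy.le) h1)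
    have hr : 0 ≤ rho l W y := rho_nonneg hl hA (h0.le.trans hyy.le) h1
    have : 0 ≤ y := h0.le.trans hyy.le
    have : 0 ≤ 1 - y := by linarith
    positivity
  unfold Mf
  linarith

/-- The double integral. -/
theorem dbl_eq (hl : 0 < l) (hl1 : l ≤ 1) (hA : Adm d W) {y' y : ℝ} (h0 : 0 ≤ y') (h1 : y' ≤ 1) :
    (∫ x in y'..y, ∫ x' in (0 : ℝ)..y', rho l W x * rho l W x' * (2 * (x - x'))) =
      ∫ x in y'..y, rho l W x *
        (2 * x * Zf l W y' - 2 * ∫ x' in (0 : ℝ)..y', rho l W x' * x') := by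
  congr 1
  funext x
  exact inner_eq hl hl1 hA h0 h1 x

/-- Lower bounds of the double integral. -/
theorem dbl_ge (hl : 0 < l) (hl1 : l ≤ 1) (hA : Adm d W) {y' y a c : ℝ} (h0 : 0 < y')
    (ha : y' ≤ a) (hay : a ≤ y) (h1 : y ≤ 1)
    (hc : ∀ x, a ≤ x → x ≤ y → c ≤ 2 * x * Zf l W y' - 2 * ∫ x' in (0 : ℝ)..y', rho l W x' * x') :
    c * (∫ x in a..y, rho l W x) ≤
      ∫ x in y'..y, ∫ x' in (0 : ℝ)..y', rho l W x * rho l W x' * (2 * (x - x')) := by
  have h1' : y' ≤ 1 := ha.trans (hay.trans h1)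
  rw [dbl_eq hl hl1 hA h0.le h1']
  have ik : ∀ u v : ℝ, 0 ≤ u → u ≤ v → v ≤ 1 → IntervalIntegrable (fun x => rho l W x *
      (2 * x * Zf l W y' - 2 * ∫ x' in (0 : ℝ)..y', rho l W x' * x')) volume u v := by
    intro u v hu huv hv
    apply (rho_int hl hl1 hA hu huv hv).mul_continuousOn
    apply Continuous.continuousOn
    fun_prop
  rw [← intervalIntegral.integral_add_adjacent_intervals (b := a)
    (ik y' a h0.le ha (hay.trans h1)) (ik a y (h0.le.trans ha) hay h1)]
  have p1 : 0 ≤ ∫ x in y'..a, rho l W x *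
      (2 * x * Zf l W y' - 2 * ∫ x' in (0 : ℝ)..y', rho l W x' * x') := by
    apply intervalIntegral.integral_nonneg ha
    intro x hx
    apply mul_nonneg (rho_nonneg hl hA (h0.le.trans hx.1) (hx.2.trans (hay.trans h1)))
    refine le_trans ?_ (ker_ge hl hl1 hA h0.le h1' x)
    apply mul_nonneg _ (Zf_nonneg hl hA h0.le h1')
    linarith [hx.1]
  have p2 : c * (∫ x in a..y, rho l W x) ≤ ∫ x in a..y, rho l W x *
      (2 * x * Zf l W y' - 2 * ∫ x' in (0 : ℝ)..y', rho l W x' * x') := by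
    rw [← intervalIntegral.integral_const_mul]
    apply intervalIntegral.integral_mono_on hay
    · exact (rho_int hl hl1 hA (h0.le.trans ha) hay h1).const_mul _
    · exact ik a y (h0.le.trans ha) hay h1
    · intro x hx
      have hr := rho_nonneg hl hA (h0.le.trans (ha.trans hx.1)) (hx.2.trans h1)
      have := hc x hx.1 hx.2
      nlinarith
  linarith

/-- The integral up to `1/2`. -/
theorem half_facts (hl : 0 < l) (hl1 : l ≤ 1) (hA : Adm d W) {y' : ℝ} (h0 : 1 / 2 < y')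
    (h1 : y' ≤ 1) : W (1 / 2) ≤ 2 * Zf l W (1 / 2) ∧ Zf l W y' ≤ 2 * Zf l W (1 / 2) ∧
      ∀ x, y' ≤ x → Zf l W (1 / 2) / 2 ≤
        2 * x * Zf l W y' - 2 * ∫ x' in (0 : ℝ)..y', rho l W x' * x' := by
  have e1 : W (1 / 2) ≤ 2 * Zf l W (1 / 2) := by
    have h := Zf_ge hl hl1 hA (y' := 1 / 2) (by norm_num) (by norm_num)
    have e : rho l W (1 / 2) = W (1 / 2) := by
      unfold rho psiR
      simp
    rw [e] at h
    linarith
  have sp : Zf l W y' = Zf l W (1 / 2) + ∫ x in (1 / 2 : ℝ)..y', rho l W x := by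
    unfold Zf
    rw [intervalIntegral.integral_add_adjacent_intervals]
    · exact rho_int hl hl1 hA le_rfl (by norm_num) (by norm_num)
    · exact rho_int hl hl1 hA (by norm_num) h0.le h1
  have hW : 0 ≤ W (1 / 2) := W_nonneg hA (by norm_num) (by norm_num)
  have e2 : ∫ x in (1 / 2 : ℝ)..y', rho l W x ≤ W (1 / 2) * (1 / 2) := by
    have h : ∫ x in (1 / 2 : ℝ)..y', rho l W x ≤ ∫ x in (1 / 2 : ℝ)..y', W (1 / 2) := by
      apply intervalIntegral.integral_mono_on h0.le
      · exact rho_int hl hl1 hA (by norm_num) h0.le h1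
      · exact intervalIntegrable_const
      · intro x hx
        have hx0 : (0 : ℝ) ≤ x := le_trans (by norm_num) hx.1
        have a1 : W x ≤ W (1 / 2) := hA.anti (1 / 2) x (by norm_num) hx.1 (hx.2.trans h1)
        have a2 := psiR_le hl1 x
        have a3 := W_nonneg hA hx0 (hx.2.trans h1)
        have a4 := (psiR_pos hl x).le
        unfold rho
        nlinarith
    rw [intervalIntegral.integral_const, smul_eq_mul] at h
    nlinarith
  refine ⟨e1, by linarith, ?_⟩
  intro x hx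
  have sp2 : (∫ x' in (0 : ℝ)..y', rho l W x' * x') = (∫ x' in (0 : ℝ)..(1 / 2), rho l W x' * x') +
      ∫ x' in (1 / 2 : ℝ)..y', rho l W x' * x' := by
    rw [intervalIntegral.integral_add_adjacent_intervals]
    · exact rho_int' hl hl1 hA le_rfl (by norm_num) (by norm_num)
    · exact rho_int' hl hl1 hA (by norm_num) h0.le h1
  have c1 : 2 * (∫ x' in (0 : ℝ)..(1 / 2), rho l W x' * x') ≤ 1 / 2 * Zf l W (1 / 2) :=
    cheb (by norm_num) ((rho_anti hl hl1 hA).mono (Set.Icc_subset_Icc le_rfl (by norm_num)))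
  have c2 : (∫ x' in (1 / 2 : ℝ)..y', rho l W x' * x') ≤
      x * ∫ x' in (1 / 2 : ℝ)..y', rho l W x' := by
    rw [← intervalIntegral.integral_const_mul]
    apply intervalIntegral.integral_mono_on h0.le
    · exact rho_int' hl hl1 hA (by norm_num) h0.le h1
    · exact (rho_int hl hl1 hA (by norm_num) h0.le h1).const_mul _
    · intro u hu
      have hu0 : (0 : ℝ) ≤ u := le_trans (by norm_num) hu.1
      have hr := rho_nonneg hl hA hu0 (hu.2.trans h1)
      have : u ≤ x := hu.2.trans hx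
      nlinarith
  have hz : 0 ≤ Zf l W (1 / 2) := Zf_nonneg hl hA (by norm_num) (by norm_num)
  have hx2 : 1 / 2 ≤ x := h0.le.trans hx
  rw [sp, sp2]
  nlinarith

/-- SRD. -/
theorem srd : SrdStmt := by
  intro d l W hl hl1 hA y' y h0 hyy h1 hne' hne
  have h1' : y' ≤ 1 := hyy.le.trans h1
  have hZ' : 0 ≤ Zf l W y' := Zf_nonneg hl hA h0.le h1'
  have hW : 0 ≤ W (1 / 2) := W_nonneg hA (by norm_num) (by norm_num)
  refine ⟨Mf_le_one hl hl1 hA h0 hyy h1, ?_⟩
  rcases lt_or_gt_of_ne hne' with hy' | hy'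
  · -- `y' < 1/2`
    rcases lt_or_gt_of_ne hne with hy | hy
    · -- `y < 1/2`
      have h := dbl_ge (c := 0) hl hl1 hA h0 le_rfl hyy.le h1 (fun x hx _ => by
        refine le_trans ?_ (ker_ge hl hl1 hA h0.le h1' x)
        apply mul_nonneg _ hZ'
        linarith)
      have e : Sf l W y' y =
          ∫ x in y'..y, ∫ x' in (0 : ℝ)..y', rho l W x * rho l W x' * (2 * (x - x')) := by
        unfold Sf
        rw [if_neg (not_lt.mpr hy.le), if_neg (not_lt.mpr hy'.le)]
        ring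
      rw [e]
      refine ⟨by linarith, fun h => absurd h (not_lt.mpr hy.le)⟩
    · -- `y' < 1/2 < y`
      have hy0 : (1 / 2 : ℝ) < y := hy
      have h := dbl_ge (c := Zf l W y' / 2) hl hl1 hA h0 hy'.le hy0.le h1 (fun x hx _ => by
        refine le_trans ?_ (ker_ge hl hl1 hA h0.le h1' x)
        nlinarith)
      have e : Sf l W y' y =
          (∫ x in y'..y, ∫ x' in (0 : ℝ)..y', rho l W x * rho l W x' * (2 * (x - x'))) +
            (1 - l) / 4 * W (1 / 2) * Zf l W y' := by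
        unfold Sf
        rw [if_pos hy0, if_neg (not_lt.mpr hy'.le)]
        ring
      have hR : 0 ≤ ∫ x in (1 / 2 : ℝ)..y, rho l W x := int_nonneg hl hA (by norm_num) hy0.le h1
      have hp : 0 ≤ (1 - l) / 4 * W (1 / 2) * Zf l W y' :=
        mul_nonneg (mul_nonneg (by linarith) hW) hZ'
      have hq : 0 ≤ Zf l W y' * ∫ x in (1 / 2 : ℝ)..y, rho l W x := mul_nonneg hZ' hR
      rw [e]
      refine ⟨by nlinarith, fun _ => ?_⟩
      rw [max_eq_right hy'.le]
      nlinarith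
  · -- `1/2 < y'`
    have hy0' : (1 / 2 : ℝ) < y' := hy'
    have hy0 : (1 / 2 : ℝ) < y := hy0'.trans hyy
    obtain ⟨f1, f2, f3⟩ := half_facts hl hl1 hA hy0' h1'
    have h := dbl_ge (c := Zf l W (1 / 2) / 2) hl hl1 hA h0 le_rfl hyy.le h1
      (fun x hx _ => f3 x hx)
    have hR : 0 ≤ ∫ x in y'..y, rho l W x := int_nonneg hl hA h0.le hyy.le h1
    have hZ : Zf l W y = Zf l W y' + ∫ x in y'..y, rho l W x := by
      unfold Zf
      rw [intervalIntegral.integral_add_adjacent_intervals]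
      · exact rho_int hl hl1 hA le_rfl h0.le h1'
      · exact rho_int hl hl1 hA h0.le hyy.le h1
    have e : Sf l W y' y =
        (∫ x in y'..y, ∫ x' in (0 : ℝ)..y', rho l W x * rho l W x' * (2 * (x - x'))) -
          (1 - l) / 4 * W (1 / 2) * ∫ x in y'..y, rho l W x := by
      unfold Sf
      rw [if_pos hy0, if_pos hy0', hZ]
      ring
    have hI : 0 ≤ Zf l W (1 / 2) := Zf_nonneg hl hA (by norm_num) (by norm_num)
    have k1 : (1 - l) / 4 * W (1 / 2) * (∫ x in y'..y, rho l W x) ≤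
        (1 - l) / 2 * Zf l W (1 / 2) * ∫ x in y'..y, rho l W x := by
      apply mul_le_mul_of_nonneg_right _ hR
      nlinarith
    have k2 : l / 2 * (Zf l W (1 / 2) * ∫ x in y'..y, rho l W x) ≤ Sf l W y' y := by
      rw [e]
      nlinarith
    have k3 : 0 ≤ Zf l W (1 / 2) * ∫ x in y'..y, rho l W x := mul_nonneg hI hR
    refine ⟨le_trans (mul_nonneg (by linarith) k3) k2, fun _ => ?_⟩
    rw [max_eq_left hy0'.le]
    refine le_trans ?_ k2
    have k4 : Zf l W y' * (∫ x in y'..y, rho l W x) ≤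
        2 * Zf l W (1 / 2) * ∫ x in y'..y, rho l W x := mul_le_mul_of_nonneg_right f2 hR
    nlinarith

end Pool.Agent.Helper2.BO
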